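import Pool.Agent.H.MP_d546a0_lc.Final

/-! Tree-sparse recovery: a new trade-off between the number of rows and the factor. -/

namespace Pool.Agent.Results.MP_d546a0_lc.LayeredHashing

/-- For every `L ≥ 1` there are matrices with `O(L³ k (1 + log₂ (n / k)) ^ (1 / L))` rows that
admit `ℓ₁/ℓ₁` tree-model recovery with factor `8 L`. -/
theorem result : ∀ L : ℕ, 1 ≤ L → ∀ h k : ℕ, 1 ≤ k → k ≤ 2 ^ h - 1 →
    ∃ m : ℕ, (m : ℝ) ≤ 442368 * (L : ℝ) ^ 3 * (k : ℝ) *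
        (1 + Real.logb 2 (((2 ^ h - 1 : ℕ) : ℝ) / (k : ℝ))) ^ (1 / (L : ℝ)) ∧
      ∃ A : Matrix (Fin m) (Fin (2 ^ h - 1)) ℝ,
      ∃ R : (Fin m → ℝ) → (Fin (2 ^ h - 1) → ℝ),
        ∀ x x' : Fin (2 ^ h - 1) → ℝ,
          (∃ T : Finset (Fin (2 ^ h - 1)), T.card = k ∧ (∃ r ∈ T, r.val = 0) ∧
             (∀ i ∈ T, i.val ≠ 0 → ∃ j ∈ T, j.val + 1 = (i.val + 1) / 2) ∧
             (∀ i, i ∉ T → x' i = 0)) →
          ∑ i, |R (Matrix.mulVec A x) i - x i| ≤ 8 * (L : ℝ) * ∑ i, |x' i - x i| := by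
  intro L hL h k hk hkn
  exact Pool.Agent.H.MP_d546a0_lc.tree_recovery L hL h k hk hkn

end Pool.Agent.Results.MP_d546a0_lc.LayeredHashing
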