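import Mathlib
import Pool.Agent.H.MP_d546a0_lc.neg.Main2
import Pool.Agent.H.MP_d546a0_lc.neg.Coords
import Pool.Agent.H.MP_d546a0_lc.neg.Num1
import Pool.Agent.H.MP_d546a0_lc.neg.Num2
import Pool.Agent.H.MP_d546a0_lc.neg.Num3
import Pool.Agent.H.MP_d546a0_lc.neg.Num4
import Pool.Agent.H.MP_d546a0_lc.neg.Num5

set_option autoImplicit false

open Filter

namespace Pool.Agent.Results.MP_d546a0_lc.NoLinearRows

/-- The full binary tree `B_h` with `h` levels. The node with number `i ∈ {1, …, 2 ^ h - 1}` is the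
element `i - 1` of `Fin (2 ^ h - 1)`; the node number `j` is joined to its children `2 j` and
`2 j + 1`, that is, to the nodes `i` with `j = ⌊i / 2⌋`. -/
def tree (h : ℕ) : SimpleGraph (Fin (2 ^ h - 1)) :=
  SimpleGraph.fromRel (fun i j => j.val + 1 = (i.val + 1) / 2)

/-- The `k`-sparse tree model: the sets of `k` nodes that contain the root and induce a connected
subgraph of the tree. -/
def TreeModel (h k : ℕ) : Set (Finset (Fin (2 ^ h - 1))) :=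
  {T | T.card = k ∧ (∃ r ∈ T, r.val + 1 = 1) ∧ ((tree h).induce (T : Set (Fin (2 ^ h - 1)))).Connected}

/-- `A` admits `ℓ₁/ℓ₁` tree-model recovery with factor `C`: for some map `Δ` one has
`‖Δ (A x) - x‖₁ ≤ C ‖x' - x‖₁` for all `x` and all `x'` supported on a set of the tree model. -/
def AdmitsRecovery {h m : ℕ} (A : Matrix (Fin m) (Fin (2 ^ h - 1)) ℝ) (k : ℕ) (C : ℝ) : Prop :=
  ∃ Δ : (Fin m → ℝ) → (Fin (2 ^ h - 1) → ℝ), ∀ x x' : Fin (2 ^ h - 1) → ℝ,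
    (∃ T ∈ TreeModel h k, ∀ i, x' i ≠ 0 → i ∈ T) →
      ∑ i, |Δ (A.mulVec x) i - x i| ≤ C * ∑ i, |x' i - x i|

theorem mem_treeModel {h k : ℕ} {T : Finset (Fin (2 ^ h - 1))} (hk : T.card = k)
    (hr : ∃ r ∈ T, r.val = 0)
    (hp : ∀ i ∈ T, i.val ≠ 0 → ∃ j ∈ T, j.val + 1 = (i.val + 1) / 2) : T ∈ TreeModel h k := by
  obtain ⟨r, hrT, hr0⟩ := hr
  refine ⟨hk, ⟨r, hrT, by omega⟩, ?_⟩
  have hreach : ∀ (n : ℕ) (i : Fin (2 ^ h - 1)) (hi : i ∈ T), i.val = n →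
      ((tree h).induce (T : Set (Fin (2 ^ h - 1)))).Reachable ⟨r, hrT⟩ ⟨i, hi⟩ := by
    intro n
    induction n using Nat.strong_induction_on with
    | _ n ih =>
      intro i hi hin
      by_cases h0 : i.val = 0
      · have : i = r := Fin.ext (by omega)
        subst this
        exact SimpleGraph.Reachable.refl _
      · obtain ⟨j, hj, hji⟩ := hp i hi h0
        have h1 := ih j.val (by omega) j hj rfl
        refine h1.trans (SimpleGraph.Adj.reachable ?_)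
        show (tree h).Adj j i
        rw [tree, SimpleGraph.fromRel_adj]
        refine ⟨fun e => ?_, Or.inr hji⟩
        rw [e] at hji
        omega
  have : Nonempty (T : Set (Fin (2 ^ h - 1))) := ⟨⟨r, hrT⟩⟩
  refine ⟨fun a b => ?_⟩
  exact (hreach _ a.1 a.2 rfl).symm.trans (hreach _ b.1 b.2 rfl)

/-- **No constant factor with `O(k)` rows for the tree model.** -/
theorem result (C c : ℝ) : ∃ q₀ : ℕ, ∀ q : ℕ, q₀ ≤ q →
    ∃ h : ℕ, 1 ≤ h ∧ h ≤ 2 ^ (2 ^ q) ∧ 2 ^ (2 ^ q) ≤ 2 ^ h - 1 ∧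
      ∀ m : ℕ, (m : ℝ) ≤ c * 2 ^ (2 ^ q) → ∀ A : Matrix (Fin m) (Fin (2 ^ h - 1)) ℝ,
        ¬ AdmitsRecovery A (2 ^ (2 ^ q)) C := by
  set C0 : ℝ := max C 1 with hC0def
  have hC0 : 0 < C0 := lt_of_lt_of_le one_pos (le_max_right _ _)
  set D0 : ℕ := ⌈c⌉₊ with hD0def
  have hC : (1:ℝ) ≤ C0 + 1 := by linarith
  have hD : 1 ≤ D0 + 1 := by omega
  have hev := (D546neg.P.ev_levels (C0 + 1) (D0 + 1) hC hD).and
    ((D546neg.P.ev_delta (C0 + 1) (D0 + 1) hC hD).and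
    ((D546neg.P.ev_num (C0 + 1) (D0 + 1) hC hD).and
    ((D546neg.P.ev_net (C0 + 1) (D0 + 1) hC hD).and
    ((D546neg.P.ev_radius (C0 + 1) (D0 + 1) hC hD).and
    ((D546neg.P.ev_d1 (C0 + 1) (D0 + 1) hC hD).and
    (D546neg.P.ev_closure.and D546neg.P.ev_basic))))))
  obtain ⟨q₀, hq₀⟩ := eventually_atTop.1 hev
  refine ⟨q₀, fun q hq => ?_⟩
  obtain ⟨e1, e2, e3, e4, e5, e6, e7, e8, e9, e10, e11⟩ := hq₀ q hq
  have hk1 : 1 ≤ D546neg.P.k q := by
    unfold D546neg.P.k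
    exact Nat.one_le_two_pow
  have hJ : 0 < D546neg.P.J q := by
    by_contra h0
    have h1 : D546neg.P.J q = 0 := by omega
    rw [h1, Nat.cast_zero, zero_mul] at e1
    have h2 : (0 : ℝ) ≤ 256 * D546neg.P.k1 q ^ 2 := by positivity
    linarith
  refine ⟨D546neg.P.H q + 1, by omega, ?_, e11, ?_⟩
  · exact le_trans (by omega) (e7 0 hJ)
  intro m' hm' A hA
  obtain ⟨R, hR'⟩ := hA
  have hR : ∀ x x' : Fin (2 ^ (D546neg.P.H q + 1) - 1) → ℝ,
          (∃ T : Finset (Fin (2 ^ (D546neg.P.H q + 1) - 1)), T.card = D546neg.P.k q ∧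
             (∃ r ∈ T, r.val = 0) ∧
             (∀ i ∈ T, i.val ≠ 0 → ∃ j ∈ T, j.val + 1 = (i.val + 1) / 2) ∧
             (∀ i, i ∉ T → x' i = 0)) →
          ∑ i, |R (Matrix.mulVec A x) i - x i| ≤ C0 * ∑ i, |x' i - x i| := by
    rintro x x' ⟨T, h1, h2, h3, h4⟩
    refine (hR' x x' ⟨T, mem_treeModel h1 h2 h3, fun i hi => ?_⟩).trans ?_
    · by_contra hiT
      exact hi (h4 i hiT)
    · exact mul_le_mul_of_nonneg_right (le_max_left _ _)
        (Finset.sum_nonneg fun i _ => abs_nonneg _)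
  obtain ⟨m, hm1, hm2, a, ha1, ha2, hNSP⟩ := D546neg.coords (D546neg.P.H q + 1) (D546neg.P.k q)
    m' C0 hC0 hk1 e11 A R hR
  have hmD : m' ≤ D0 * D546neg.P.k q := by
    have h1 : (m' : ℝ) ≤ (D0 * D546neg.P.k q : ℕ) := by
      refine hm'.trans ?_
      push_cast
      have h2 : ((D546neg.P.k q : ℕ) : ℝ) = 2 ^ (2 ^ q) := by
        unfold D546neg.P.k D546neg.P.kap
        push_cast
        rfl
      rw [h2]
      exact mul_le_mul_of_nonneg_right (Nat.le_ceil c) (by positivity)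
    exact_mod_cast h1
  have hmM : (m : ℝ) ≤ D546neg.P.M (D0 + 1) q := by
    unfold D546neg.P.M
    have h1 : m ≤ (D0 + 1) * D546neg.P.k q :=
      hm2.trans (hmD.trans (Nat.mul_le_mul_right _ (Nat.le_succ D0)))
    exact_mod_cast h1
  exact D546neg.no_system (C0 + 1) (D0 + 1) q hC hD e1 e2 e3 e4 e5 e6 e7 e8 e9 e10
    (D546neg.P.M_le (D0 + 1) q) (D546neg.P.A_le (C0 + 1) (D0 + 1) q hC hD)
    (D546neg.P.theta_lt_one (C0 + 1) (D0 + 1) q hC hD e10) hm1 hmM a ha1 ha2 hNSP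

end Pool.Agent.Results.MP_d546a0_lc.NoLinearRows
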